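import Pool.Agent.Work.MP_bd4052_lc_helper72.ABS1b

/-!
# MP_bd4052_lc, block ABS1: valid sequences of caps and of indices
-/

set_option autoImplicit false

namespace Pool.Agent.Work.MP_bd4052_lc

namespace A1h72

theorem sol_append (L M : List (Con ℝ)) : sol (L ++ M) = sol L ∩ sol M := by
  ext z
  unfold sol
  simp only [List.mem_append, Set.mem_inter_iff]
  constructor
  · intro h
    exact ⟨fun c hc => h c (Or.inl hc), fun c hc => h c (Or.inr hc)⟩
  · rintro ⟨h1, h2⟩ c (hc | hc)
    · exact h1 c hc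
    · exact h2 c hc

theorem sol_cons (c : Con ℝ) (M : List (Con ℝ)) : sol (c :: M) = {z | dotR c.1 z < c.2} ∩ sol M := by
  ext z
  unfold sol
  simp only [List.mem_cons, Set.mem_inter_iff]
  constructor
  · intro h
    exact ⟨h c (Or.inl rfl), fun c hc => h c (Or.inr hc)⟩
  · rintro ⟨h1, h2⟩ d (rfl | hd)
    · exact h1
    · exact h2 d hd

theorem cneg_set (hG1 : Stmt_GEO1) (e : Con ℝ) (he : e.1 < 8) :
    {z : Pt | dotR (cneg e).1 z < (cneg e).2} = {z | e.2 < dotR e.1 z} := by
  ext z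
  have h := (hG1.2.1 e.1 he).2 z
  change dotR ((e.1 + 4) % 8) z < -e.2 ↔ e.2 < dotR e.1 z
  rw [h]
  exact neg_lt_neg_iff

theorem rectC_dir (r : Rec ℝ) : (∀ c ∈ rectC r, c.1 < 8) ∧ ∀ i < 8, ∃ c ∈ rectC r, c.1 = i := by
  unfold rectC
  constructor
  · intro c hc
    simp only [List.mem_cons, List.not_mem_nil, or_false] at hc
    rcases hc with rfl | rfl | rfl | rfl | rfl | rfl | rfl | rfl <;> norm_num
  · intro i hi
    interval_cases i
    · exact ⟨_, List.mem_cons_self, rfl⟩
    · exact ⟨_, List.mem_cons_of_mem _ List.mem_cons_self, rfl⟩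
    · exact ⟨_, List.mem_cons_of_mem _ (List.mem_cons_of_mem _ List.mem_cons_self), rfl⟩
    · exact ⟨_, List.mem_cons_of_mem _ (List.mem_cons_of_mem _ (List.mem_cons_of_mem _
        List.mem_cons_self)), rfl⟩
    · exact ⟨_, List.mem_cons_of_mem _ (List.mem_cons_of_mem _ (List.mem_cons_of_mem _
        (List.mem_cons_of_mem _ List.mem_cons_self))), rfl⟩
    · exact ⟨_, List.mem_cons_of_mem _ (List.mem_cons_of_mem _ (List.mem_cons_of_mem _
        (List.mem_cons_of_mem _ (List.mem_cons_of_mem _ List.mem_cons_self)))), rfl⟩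
    · exact ⟨_, List.mem_cons_of_mem _ (List.mem_cons_of_mem _ (List.mem_cons_of_mem _
        (List.mem_cons_of_mem _ (List.mem_cons_of_mem _ (List.mem_cons_of_mem _
          List.mem_cons_self))))), rfl⟩
    · exact ⟨_, List.mem_cons_of_mem _ (List.mem_cons_of_mem _ (List.mem_cons_of_mem _
        (List.mem_cons_of_mem _ (List.mem_cons_of_mem _ (List.mem_cons_of_mem _
          (List.mem_cons_of_mem _ List.mem_cons_self)))))), rfl⟩

section

variable {r : Rec ℝ} {C : List (Cap ℝ)}

theorem base_dir (hCO : CapsOK r C) {I : List ℕ} (hI : ∀ j ∈ I, j < C.length) {k : ℕ}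
    (hk : k = 0 ∨ ∃ p ∈ I, k = p + 1) :
    (∀ c ∈ base r C I k, c.1 < 8) ∧ ∀ i < 8, ∃ c ∈ base r C I k, c.1 = i := by
  obtain ⟨h1, h2⟩ := rectC_dir r
  unfold base
  constructor
  · intro c hc
    rw [List.mem_append] at hc
    rcases hc with hc | hc
    · exact h1 c hc
    · rcases hk with rfl | ⟨p, hp, rfl⟩
      · simp only [decide_true, cond_true, List.mem_map] at hc
        obtain ⟨j, hj, rfl⟩ := hc
        exact hCO.dir _ (capAt72_mem C (hI j hj))
      · have hne : ¬ (p + 1 = 0) := by omega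
        simp only [hne, decide_false, cond_false, Nat.add_sub_cancel, List.mem_cons,
          List.mem_map, List.mem_filter] at hc
        rcases hc with rfl | ⟨j, hj, rfl⟩
        · unfold cneg
          simp only
          omega
        · exact hCO.dir _ (capAt72_mem C (hI j hj.1))
  · intro i hi
    obtain ⟨c, hc, hci⟩ := h2 i hi
    exact ⟨c, List.mem_append_left _ hc, hci⟩

theorem pchain_lt (hC : Stmt_COR) (hCO : CapsOK r C) (k : ℕ) : ∀ j ∈ pchain r C k, j < C.length := by
  intro j hj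
  unfold pchain at hj
  by_cases hk : k = 0
  · simp [hk] at hj
  · simp only [hk, decide_false, cond_false] at hj
    exact ((mem_chain hC hCO).mp hj).1

open Classical in
/-- the positions of the pieces -/
theorem region_eq (hG1 : Stmt_GEO1) (hG2 : Stmt_GEO2) (hR : Stmt_REF) (hI : Stmt_INT)
    (hC : Stmt_COR) (hCO : CapsOK r C) {I : List ℕ} (h : Gd r C I) {k : ℕ}
    (hk : k = 0 ∨ ∃ p ∈ I, k = p + 1) :
    interior (gm (ancO r (I.map (capAt C)) (toP C k)) '' piece r (I.map (capAt C)) (toP C k)) =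
      sol (region r C I k) ∧
    (pchain r C k).map (capAt C) = ancO r (I.map (capAt C)) (toP C k) := by
  obtain ⟨a1, a2, a3, a4, a5⟩ := capsOK72 hG2 r C hCO
  obtain ⟨r1, r2, r3, r4⟩ := hR
  have hIlt := Gd_lt h
  have hdir : ∀ e ∈ I.map (capAt C), e.1.1 < 8 := by
    intro e he
    rw [List.mem_map] at he
    obtain ⟨j, hj, rfl⟩ := he
    exact (a1 j (hIlt j hj)).1
  obtain ⟨i1, i2⟩ := hI r hCO.rok (I.map (capAt C)) hdir
  have hrect := (hG1.2.2.2 r hCO.rok).1
  obtain ⟨b1, b2⟩ := base_dir hCO hIlt hk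
  have hch : (pchain r C k).map (capAt C) = ancO r (I.map (capAt C)) (toP C k) := by
    rcases hk with rfl | ⟨p, hp, rfl⟩
    · rfl
    · rw [toP_succ]
      unfold pchain ancO
      simp only [Nat.add_sub_cancel]
      have hne : ¬ (p + 1 = 0) := by omega
      simp only [hne, decide_false, cond_false]
      rw [ancs_map hG2 hCO (hIlt p hp) hIlt, chain_eq hC hCO h hp]
  refine ⟨?_, hch⟩
  have hanc : ∀ f ∈ ancO r (I.map (capAt C)) (toP C k), f.1.1 < 8 := by
    intro f hf
    rw [← hch, List.mem_map] at hf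
    obtain ⟨j, hj, rfl⟩ := hf
    exact (a1 j (pchain_lt hC hCO k j hj)).1
  rw [(r3 _ hanc).2.2.1]
  unfold region
  rw [(r4 C (pchain r C k) (base r C I k) hCO.dir b1 (pchain_lt hC hCO k)).1, hch]
  congr 1
  rcases hk with rfl | ⟨p, hp, rfl⟩
  · rw [toP_zero, i1]
    unfold base
    simp only [decide_true, cond_true, List.map_map]
    rfl
  · have hpn := hIlt p hp
    rw [toP_succ, (i2 (capAt C p) (a1 p hpn).1).2]
    unfold base
    have hne : ¬ (p + 1 = 0) := by omega
    simp only [hne, decide_false, cond_false, Nat.add_sub_cancel]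
    rw [sol_append, sol_cons, cneg_set hG1 _ (a1 p hpn).1, hrect]
    ext z
    simp only [Set.mem_inter_iff, sol, List.mem_map, List.mem_filter, Bool.and_eq_true,
      Bool.not_eq_true', decide_eq_false_iff_not]
    constructor
    · rintro ⟨h1, h2, h3⟩
      refine ⟨h1, h2, ?_⟩
      rintro c ⟨j, ⟨hj, hs, hjp⟩, rfl⟩
      refine h3 (capAt C j) ⟨j, hj, rfl⟩ ((a2 j (hIlt j hj) p hpn).mp hs) ?_
      intro heq
      refine a5 j (hIlt j hj) p hpn hjp ?_
      left
      rw [heq]
    · rintro ⟨h1, h2, h3⟩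
      refine ⟨h1, h2, ?_⟩
      rintro f ⟨j, hj, rfl⟩ hs hne'
      refine h3 _ ⟨j, ⟨hj, (a2 j (hIlt j hj) p hpn).mpr hs, ?_⟩, rfl⟩
      rintro rfl
      exact hne' rfl

open Classical in
/-- THE KEY LEMMA: the geometric and the combinatorial test agree. -/
theorem free_iff (hO : Stmt_OCT) (hG1 : Stmt_GEO1) (hG2 : Stmt_GEO2) (hR : Stmt_REF)
    (hI : Stmt_INT) (hS : Stmt_SEM0) (hC : Stmt_COR) (hCO : CapsOK r C) {e : ℕ} {I : List ℕ}
    (h : Gd r C (e :: I)) (hV : VSR r (I.map (capAt C)))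
    (hfit : ∀ f ∈ I.map (capAt C), (SubS r (capAt C e).1 f.1 ∨ DisjS r (capAt C e).1 f.1) ∧
      ¬ SameL (capAt C e).1 f.1) :
    Free r (I.map (capAt C)) (capAt C e) ↔
      unblocked r C I (dpI r C I e) (parI r C I e) e = true := by
  obtain ⟨a1, a2, a3, a4, a5⟩ := capsOK72 hG2 r C hCO
  obtain ⟨s1, s2, s3, s4, s5, s6, s7, s8⟩ := hS r hCO.rok _ hV
  obtain ⟨t1, t2, t3, t4, t5, t6, t7, t8, -⟩ := s8 (capAt C e) (a1 e h.2.1).1 (a1 e h.2.1).2 hfit
  obtain ⟨p1, p2, l₁, l₂, p3, p4, p5⟩ := stack_parent hG2 hC hCO h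
  have hup := upR_eq hG2 hC hCO h
  -- the rotated part
  obtain ⟨q1, q2⟩ := region_eq hG1 hG2 hR hI hC hCO h.1 p2
  have hdir : ∀ e ∈ I.map (capAt C), e.1.1 < 8 := fun e he => (s1 e he).1
  obtain ⟨i1, i2⟩ := hI r hCO.rok (I.map (capAt C)) hdir
  obtain ⟨r1, r2, r3, r4⟩ := hR
  have hrotdir : (∀ c ∈ (cneg (capAt C e).1 :: rectC r), c.1 < 8) ∧
      ∀ i < 8, ∃ c ∈ (cneg (capAt C e).1 :: rectC r), c.1 = i := by
    obtain ⟨h1, h2⟩ := rectC_dir r
    constructor
    · intro c hc
      rcases List.mem_cons.mp hc with rfl | hc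
      · unfold cneg
        simp only
        omega
      · exact h1 c hc
    · intro i hi
      obtain ⟨c, hc, hci⟩ := h2 i hi
      exact ⟨c, List.mem_cons_of_mem _ hc, hci⟩
  have hrot0 := r4 C (pchain r C (parI r C I e)) (cneg (capAt C e).1 :: rectC r) hCO.dir
    hrotdir.1 (pchain_lt hC hCO _)
  have hrot : interior (gm (ancs r (I.map (capAt C)) (capAt C e)) '' capC r (capAt C e)) =
      sol (rotreg r C (parI r C I e) e) := by
    rw [t5, p1, ← q2]
    have hanc : ∀ f ∈ (pchain r C (parI r C I e)).map (capAt C), f.1.1 < 8 := by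
      intro f hf
      rw [List.mem_map] at hf
      obtain ⟨j, hj, rfl⟩ := hf
      exact (a1 j (pchain_lt hC hCO _ j hj)).1
    rw [(r3 _ hanc).2.2.1]
    unfold rotreg
    rw [hrot0.1, (i2 (capAt C e) (a1 e h.2.1).1).1]
  -- membership of the sides
  have hside : ∀ k ∈ side r C I (dpI r C I e) (parI r C I e) (upf r C e),
      k = 0 ∨ ∃ p ∈ I, k = p + 1 := by
    intro k hk
    have hdpI : dpI r C I e <:+ I := List.dropWhile_suffix _
    unfold side at hk
    rw [List.mem_append] at hk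
    rcases hk with hk | hk
    · rw [List.mem_map] at hk
      obtain ⟨j, hj, rfl⟩ := hk
      right
      exact ⟨j, (List.mem_filter.mp hj).1, rfl⟩
    · by_cases h0 : parI r C I e = 0
      · simp [h0] at hk
      · simp only [h0, decide_false, cond_false] at hk
        cases hb : (upf r C (parI r C I e - 1) == upf r C e)
        · rw [hb] at hk
          simp only [cond_false, List.mem_cons, List.mem_map] at hk
          rcases hk with rfl | ⟨j, hj, rfl⟩
          · exact Or.inl rfl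
          · right
            exact ⟨j, hdpI.subset (List.mem_filter.mp hj).1, rfl⟩
        · rw [hb] at hk
          simp at hk
  -- the test for one piece
  have htest : ∀ k ∈ side r C I (dpI r C I e) (parI r C I e) (upf r C e),
      (interior (gm (ancs r (I.map (capAt C)) (capAt C e)) '' capC r (capAt C e)) ∩
        interior (gm (ancO r (I.map (capAt C)) (toP C k)) '' piece r (I.map (capAt C)) (toP C k))
          = ∅ ↔ ctest (region r C I k ++ rotreg r C (parI r C I e) e) = false) := by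
    intro k hk
    have hk' := hside k hk
    obtain ⟨b1, b2⟩ := base_dir hCO (Gd_lt h.1) hk'
    have hreg := r4 C (pchain r C k) (base r C I k) hCO.dir b1 (pchain_lt hC hCO k)
    rw [hrot, (region_eq hG1 hG2 ⟨r1, r2, r3, r4⟩ hI hC hCO h.1 hk').1, Set.inter_comm,
      ← sol_append, ← Bool.not_eq_true, hO, Set.not_nonempty_iff_eq_empty]
    · intro c hc
      rw [List.mem_append] at hc
      rcases hc with hc | hc
      · exact hreg.2.1 c hc
      · exact hrot0.2.1 c hc
    · intro i hi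
      obtain ⟨c, hc, hci⟩ := hreg.2.2 b2 i hi
      exact ⟨c, List.mem_append_left _ hc, hci⟩
  have hun : unblocked r C I (dpI r C I e) (parI r C I e) e = true ↔
      ∀ k ∈ side r C I (dpI r C I e) (parI r C I e) (upf r C e),
        interior (gm (ancs r (I.map (capAt C)) (capAt C e)) '' capC r (capAt C e)) ∩
        interior (gm (ancO r (I.map (capAt C)) (toP C k)) '' piece r (I.map (capAt C)) (toP C k))
          = ∅ := by
    unfold unblocked
    rw [List.all_eq_true]
    refine forall₂_congr fun k hk => ?_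
    rw [htest k hk, Bool.not_eq_true']
  rw [hun]
  unfold Free
  rw [p1, hup]
  constructor
  · intro H k hk
    have H' := H l₁ l₂ p3
    refine H' (toP C k) ?_
    cases hu : upf r C e
    · rw [hu] at hk
      rw [if_neg (by simp), p5]
      exact ⟨k, hk, rfl⟩
    · rw [hu] at hk
      rw [if_pos rfl, p4]
      exact ⟨k, hk, rfl⟩
  · intro H m₁ m₂ hm K hK
    have hnd := s5
    rw [p3] at hm
    rw [p3, List.nodup_append] at hnd
    obtain ⟨n1, n2, n3⟩ := hnd
    rw [List.nodup_cons] at n2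
    have hinj := (List.append_cons_inj_of_notMem (fun hx => n3 _ hx _ List.mem_cons_self rfl)
      n2.1).mp hm
    obtain ⟨rfl, -, rfl⟩ := hinj
    cases hu : upf r C e
    · rw [hu, if_neg (by simp), p5] at hK
      obtain ⟨k, hk, rfl⟩ := hK
      exact H k (by rw [hu]; exact hk)
    · rw [hu, if_pos rfl, p4] at hK
      obtain ⟨k, hk, rfl⟩ := hK
      exact H k (by rw [hu]; exact hk)

theorem VSR_iff_VSI (hO : Stmt_OCT) (hG1 : Stmt_GEO1) (hG2 : Stmt_GEO2) (hR : Stmt_REF)
    (hI : Stmt_INT) (hS : Stmt_SEM0) (hC : Stmt_COR) (hCO : CapsOK r C) {I : List ℕ}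
    (h : Gd r C I) : VSR r (I.map (capAt C)) ↔ VSI r C I := by
  obtain ⟨a1, a2, a3, a4, a5⟩ := capsOK72 hG2 r C hCO
  induction I with
  | nil => exact Iff.rfl
  | cons e I ih =>
    have ih' := ih h.1
    have hfit : ∀ f ∈ I.map (capAt C), (SubS r (capAt C e).1 f.1 ∨ DisjS r (capAt C e).1 f.1) ∧
        ¬ SameL (capAt C e).1 f.1 := by
      intro f hf
      rw [List.mem_map] at hf
      obtain ⟨j, hj, rfl⟩ := hf
      have hjn := Gd_lt h.1 j hj
      have hne : e ≠ j := by
        rintro rfl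
        exact h.2.2.1 hj
      refine ⟨?_, a5 e h.2.1 j hjn hne⟩
      rcases a4 e h.2.1 j hjn with h' | h' | h' | h'
      · exact absurd h' hne
      · exact Or.inl ((a2 e h.2.1 j hjn).mp h')
      · exact absurd (Gd_closed h.1 j hj e h.2.1 h') h.2.2.1
      · exact Or.inr h'
    rw [List.map_cons]
    constructor
    · rintro ⟨h1, -, -, -, h5⟩
      refine ⟨ih'.mp h1, h.2.1, h.2.2.1, h.2.2.2, ?_⟩
      exact (free_iff hO hG1 hG2 hR hI hS hC hCO h h1 hfit).mp h5
    · rintro ⟨h1, -, -, -, h5⟩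
      have hV := ih'.mpr h1
      refine ⟨hV, (a1 e h.2.1).1, (a1 e h.2.1).2, hfit, ?_⟩
      exact (free_iff hO hG1 hG2 hR hI hS hC hCO h hV hfit).mpr h5

theorem VSR_pairwise {G : List (Cap ℝ)} (h : VSR r G) :
    G.Pairwise fun e f => SubS r e.1 f.1 ∨ DisjS r e.1 f.1 := by
  induction G with
  | nil => simp
  | cons e G ih =>
    rw [List.pairwise_cons]
    exact ⟨fun f hf => (h.2.2.2.1 f hf).1, ih h.1⟩

theorem Gd_of_VSR (hG2 : Stmt_GEO2) (hC : Stmt_COR) (hCO : CapsOK r C) {J : List ℕ}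
    (hJ : J.Perm (List.range C.length)) (hV : VSR r (J.map (capAt C))) : Gd r C J := by
  obtain ⟨a1, a2, a3, a4, a5⟩ := capsOK72 hG2 r C hCO
  obtain ⟨c1, c2, c3, c4, c5, c6⟩ := hC r C hCO
  have hpw := VSR_pairwise hV
  rw [List.pairwise_map] at hpw
  have hnd : J.Nodup := hJ.nodup_iff.mpr List.nodup_range
  have hmem : ∀ j, j ∈ J ↔ j < C.length := by
    intro j
    rw [hJ.mem_iff, List.mem_range]
  have key : ∀ I A : List ℕ, J = A ++ I → Gd r C I := by
    intro I
    induction I with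
    | nil => intro A _; trivial
    | cons e I ih =>
      intro A hA
      have he : e < C.length := (hmem e).mp (by rw [hA]; simp)
      rw [hA] at hnd hpw
      rw [List.nodup_append] at hnd
      rw [List.pairwise_append] at hpw
      refine ⟨ih (A ++ [e]) (by rw [hA]; simp), he, (List.nodup_cons.mp hnd.2.1).1, ?_⟩
      intro j hj hej
      have hjJ := (hmem j).mpr hj
      rw [hA, List.mem_append, List.mem_cons] at hjJ
      rcases hjJ with hjA | hj' | hj'
      · left
        rcases hpw.2.2 j hjA e List.mem_cons_self with h' | h'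
        · exact c3 j hj e he ((a2 j hj e he).mpr h') hej
        · exfalso
          obtain ⟨⟨z, hz, hz'⟩, -⟩ := (a1 e he).2
          have h1 := (a2 e he j hj).mp hej z hz hz'
          exact h' z hz h1 hz'
      · exact Or.inl hj'
      · exact Or.inr hj'
  exact key J [] rfl

theorem Gd_of_VSI {I : List ℕ} (h : VSI r C I) : Gd r C I := by
  induction I with
  | nil => trivial
  | cons e I ih => exact ⟨ih h.1, h.2.1, h.2.2.1, h.2.2.2.1⟩

end

end A1h72

/-- BLOCK ABS1 -/
theorem stmt_ABS1 (hO : Stmt_OCT) (hG1 : Stmt_GEO1) (hG2 : Stmt_GEO2) (hR : Stmt_REF)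
    (hI : Stmt_INT) (hS : Stmt_SEM0) : Stmt_ABS1 := by
  intro r C hCO
  have hC := stmt_COR hG1 hG2
  constructor
  · rintro ⟨G, hG, hV⟩
    rw [← A1h72.range_map_capAt C] at hG
    obtain ⟨I, hI', rfl⟩ := A1h72.perm_lift (capAt C) hG
    rw [A1h72.range_map_capAt C] at *
    have hg := A1h72.Gd_of_VSR hG2 hC hCO hI' hV
    exact ⟨I, hI', (A1h72.VSR_iff_VSI hO hG1 hG2 hR hI hS hC hCO hg).mp hV⟩
  · rintro ⟨I, hI', hV⟩
    refine ⟨I.map (capAt C), ?_, ?_⟩
    · have := hI'.map (capAt C)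
      rw [A1h72.range_map_capAt C] at this
      exact this
    · exact (A1h72.VSR_iff_VSI hO hG1 hG2 hR hI hS hC hCO (A1h72.Gd_of_VSI hV)).mpr hV

end Pool.Agent.Work.MP_bd4052_lc
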