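import Pool.Agent.Work.MP_bd4052_lc.Interface

/-!
# MP_bd4052_lc, block ABS1, part a: the combinatorial part
-/

set_option autoImplicit false

namespace Pool.Agent.Work.MP_bd4052_lc

namespace A1h72

section

variable {r : Rec ℝ} {C : List (Cap ℝ)}

/-- upward closed sequences of indices -/
def Gd (r : Rec ℝ) (C : List (Cap ℝ)) : List ℕ → Prop
  | [] => True
  | i :: I => Gd r C I ∧ i < C.length ∧ i ∉ I ∧
      ∀ j < C.length, isub r C i j = true → j = i ∨ j ∈ I

theorem Gd_suffix {I J : List ℕ} (h : Gd r C I) (hs : J <:+ I) : Gd r C J := by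
  induction I with
  | nil =>
    rw [List.suffix_nil] at hs
    subst hs
    trivial
  | cons i I ih =>
    rw [List.suffix_cons_iff] at hs
    rcases hs with rfl | hs
    · exact h
    · exact ih h.1 hs

theorem Gd_lt {I : List ℕ} (h : Gd r C I) : ∀ i ∈ I, i < C.length := by
  induction I with
  | nil => simp
  | cons i I ih =>
    intro j hj
    rcases List.mem_cons.mp hj with rfl | hj
    · exact h.2.1
    · exact ih h.1 j hj

theorem Gd_nodup {I : List ℕ} (h : Gd r C I) : I.Nodup := by
  induction I with
  | nil => simp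
  | cons i I ih => exact List.nodup_cons.mpr ⟨h.2.2.1, ih h.1⟩

theorem Gd_closed {I : List ℕ} (h : Gd r C I) :
    ∀ i ∈ I, ∀ j < C.length, isub r C i j = true → j ∈ I := by
  induction I with
  | nil => simp
  | cons i I ih =>
    intro k hk j hj hkj
    rcases List.mem_cons.mp hk with rfl | hk
    · rcases h.2.2.2 j hj hkj with rfl | h'
      · exact List.mem_cons_self
      · exact List.mem_cons_of_mem _ h'
    · exact List.mem_cons_of_mem _ (ih h.1 k hk j hj hkj)

/-- two caps that contain a third one are nested -/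
theorem nested (hC : Stmt_COR) (hCO : CapsOK r C) {i a b : ℕ} (hi : i < C.length)
    (ha : a < C.length) (hb : b < C.length) (h1 : isub r C i a = true) (h2 : isub r C i b = true) :
    isub r C a b = true ∨ isub r C b a = true := by
  obtain ⟨c1, c2, c3, c4, c5, c6⟩ := hC r C hCO
  obtain ⟨c, hc, hci⟩ := c4 i hi
  exact c5 c hc a ha b hb (c6 c hc i hi a ha hci h1) (c6 c hc i hi b hb hci h2)

theorem pairwise_filter (hC : Stmt_COR) (hCO : CapsOK r C) {i : ℕ} (hi : i < C.length)
    {I : List ℕ} (h : Gd r C I) :
    (I.filter fun j => isub r C i j).Pairwise fun a b => isub r C a b = true := by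
  induction I with
  | nil => simp
  | cons e I ih =>
    by_cases he : isub r C i e = true
    · rw [List.filter_cons_of_pos he, List.pairwise_cons]
      refine ⟨?_, ih h.1⟩
      intro b hb
      rw [List.mem_filter] at hb
      have hbn := Gd_lt h.1 b hb.1
      rcases nested hC hCO hi h.2.1 hbn he hb.2 with h' | h'
      · exact h'
      · exact absurd (Gd_closed h.1 b hb.1 e h.2.1 h') h.2.2.1
    · rw [List.filter_cons_of_neg he]
      exact ih h.1

/-- the caps that contain `i`, as a finite set -/
noncomputable def upSet (r : Rec ℝ) (C : List (Cap ℝ)) (i : ℕ) : Finset ℕ :=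
  ((List.range C.length).filter fun j => isub r C i j).toFinset

theorem mem_upSet {i j : ℕ} : j ∈ upSet r C i ↔ j < C.length ∧ isub r C i j = true := by
  unfold upSet
  rw [List.mem_toFinset, List.mem_filter, List.mem_range]

theorem depth_eq (i : ℕ) : depth r C i = (upSet r C i).card := by
  unfold depth upSet
  rw [List.toFinset_card_of_nodup (List.nodup_range.filter _)]

theorem depth_le (i : ℕ) : depth r C i ≤ C.length := by
  unfold depth
  refine le_trans (List.length_filter_le _ _) ?_
  rw [List.length_range]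

theorem depth_pos (hC : Stmt_COR) (hCO : CapsOK r C) {i : ℕ} (hi : i < C.length) :
    1 ≤ depth r C i := by
  obtain ⟨c1, c2, c3, c4, c5, c6⟩ := hC r C hCO
  rw [depth_eq, Nat.one_le_iff_ne_zero]
  rw [Finset.card_ne_zero]
  exact ⟨i, mem_upSet.mpr ⟨hi, c1 i hi⟩⟩

theorem depth_lt (hC : Stmt_COR) (hCO : CapsOK r C) {x y : ℕ} (hx : x < C.length)
    (hy : y < C.length) (h : isub r C x y = true) (hne : x ≠ y) : depth r C y < depth r C x := by
  obtain ⟨c1, c2, c3, c4, c5, c6⟩ := hC r C hCO
  rw [depth_eq, depth_eq]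
  refine Finset.card_lt_card ?_
  rw [Finset.ssubset_iff_of_subset]
  · refine ⟨x, mem_upSet.mpr ⟨hx, c1 x hx⟩, ?_⟩
    rw [mem_upSet]
    rintro ⟨-, h'⟩
    exact hne (c3 x hx y hy h h')
  · intro z hz
    rw [mem_upSet] at hz ⊢
    exact ⟨hz.1, c2 x hx y hy z hz.1 h hz.2⟩

theorem depth_filter {i : ℕ} {I : List ℕ} (h : Gd r C I) (hi : i ∈ I) :
    depth r C i = (I.filter fun j => isub r C i j).length := by
  rw [depth_eq, ← List.toFinset_card_of_nodup ((Gd_nodup h).filter _)]
  congr 1
  ext j
  rw [mem_upSet, List.mem_toFinset, List.mem_filter]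
  constructor
  · rintro ⟨h1, h2⟩
    exact ⟨Gd_closed h i hi j h1 h2, h2⟩
  · rintro ⟨h1, h2⟩
    exact ⟨Gd_lt h j h1, h2⟩

theorem mem_chain (hC : Stmt_COR) (hCO : CapsOK r C) {i j : ℕ} :
    j ∈ chain r C i ↔ j < C.length ∧ isub r C i j = true := by
  unfold chain
  simp only [List.mem_flatMap, List.mem_filter, List.mem_range, Bool.and_eq_true,
    decide_eq_true_eq]
  constructor
  · rintro ⟨k, -, h1, h2, -⟩
    exact ⟨h1, h2⟩
  · rintro ⟨h1, h2⟩
    have h3 := depth_pos hC hCO h1
    have h4 := depth_le (r := r) (C := C) j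
    exact ⟨C.length - depth r C j, by omega, h1, h2, by omega⟩

theorem pairwise_chain (hC : Stmt_COR) (hCO : CapsOK r C) {i : ℕ} (hi : i < C.length) :
    (chain r C i).Pairwise fun a b => a ≠ b ∧ isub r C a b = true := by
  unfold chain
  rw [List.pairwise_flatMap]
  constructor
  · intro k _
    refine (List.nodup_range.filter _).pairwise_of_forall_ne ?_
    intro a ha b hb hab
    simp only [List.mem_filter, List.mem_range, Bool.and_eq_true, decide_eq_true_eq] at ha hb
    exfalso
    rcases nested hC hCO hi ha.1 hb.1 ha.2.1 hb.2.1 with h | h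
    · have := depth_lt hC hCO ha.1 hb.1 h hab
      omega
    · have := depth_lt hC hCO hb.1 ha.1 h (Ne.symm hab)
      omega
  · refine List.Pairwise.imp ?_ (List.pairwise_lt_range)
    intro k k' hkk x hx y hy
    simp only [List.mem_filter, List.mem_range, Bool.and_eq_true, decide_eq_true_eq] at hx hy
    have hne : x ≠ y := by
      rintro rfl
      omega
    refine ⟨hne, ?_⟩
    rcases nested hC hCO hi hx.1 hy.1 hx.2.1 hy.2.1 with h | h
    · exact h
    · have := depth_lt hC hCO hy.1 hx.1 h (Ne.symm hne)
      omega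

theorem chain_eq (hC : Stmt_COR) (hCO : CapsOK r C) {i : ℕ} {I : List ℕ} (h : Gd r C I)
    (hi : i ∈ I) : chain r C i = I.filter fun j => isub r C i j := by
  have hin := Gd_lt h i hi
  have hp := pairwise_chain hC hCO hin
  have hnd : (chain r C i).Nodup := hp.imp fun h => h.1
  refine List.Perm.eq_of_pairwise (le := fun a b => isub r C a b = true) ?_
    (hp.imp fun h => h.2) (pairwise_filter hC hCO hin h) ?_
  · intro a b ha hb hab hba
    obtain ⟨c1, c2, c3, c4, c5, c6⟩ := hC r C hCO
    rw [mem_chain hC hCO] at ha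
    rw [List.mem_filter] at hb
    exact c3 a ha.1 b (Gd_lt h b hb.1) hab hba
  · rw [List.perm_ext_iff_of_nodup hnd ((Gd_nodup h).filter _)]
    intro j
    rw [mem_chain hC hCO, List.mem_filter]
    constructor
    · rintro ⟨h1, h2⟩
      exact ⟨Gd_closed h i hi j h1 h2, h2⟩
    · rintro ⟨h1, h2⟩
      exact ⟨Gd_lt h j h1, h2⟩

end

/-- lifting permutations along maps -/
theorem perm_lift {α β : Type} (f : α → β) {G : List β} {L : List α} (h : G.Perm (L.map f)) :
    ∃ I : List α, I.Perm L ∧ I.map f = G := by
  generalize hM : L.map f = M at h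
  induction h generalizing L with
  | nil =>
    refine ⟨[], ?_, rfl⟩
    rw [List.map_eq_nil_iff] at hM
    rw [hM]
  | cons a _ ih =>
    cases L with
    | nil => simp at hM
    | cons b L =>
      simp only [List.map_cons, List.cons.injEq] at hM
      obtain ⟨I, hI, hI'⟩ := ih hM.2
      exact ⟨b :: I, hI.cons _, by rw [List.map_cons, hI', hM.1]⟩
  | swap a b l =>
    cases L with
    | nil => simp at hM
    | cons x L =>
      cases L with
      | nil => simp at hM
      | cons y L =>
        simp only [List.map_cons, List.cons.injEq] at hM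
        obtain ⟨h1, h2, h3⟩ := hM
        refine ⟨y :: x :: L, List.Perm.swap _ _ _, ?_⟩
        simp only [List.map_cons, h1, h2, h3]
  | trans _ _ ih1 ih2 =>
    obtain ⟨I, hI, hI'⟩ := ih2 hM
    obtain ⟨J, hJ, hJ'⟩ := ih1 hI'
    exact ⟨J, hJ.trans hI, hJ'⟩

theorem range_map_capAt (C : List (Cap ℝ)) : (List.range C.length).map (capAt C) = C := by
  apply List.ext_getElem
  · simp
  · intro i h1 h2
    simp only [List.getElem_map, List.getElem_range]
    unfold capAt
    rw [List.getD_eq_getElem _ _ h2]

end A1h72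

end Pool.Agent.Work.MP_bd4052_lc
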