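import Pool.Agent.Work.MP_bd4052_lc.Interface

/-!
# MP_bd4052_lc, block COR: order relation and corners
-/

set_option autoImplicit false

namespace Pool.Agent.Work.MP_bd4052_lc

/-- the corner `c` of the sheet -/
noncomputable def corner72 (r : Rec ℝ) (c : ℕ) : Pt :=
  ((bif decide (c = 0) || decide (c = 3) then r.1.1 else r.1.2),
    (bif decide (c = 0) || decide (c = 1) then r.2.1 else r.2.2))

theorem inCorner72_iff (r : Rec ℝ) (C : List (Cap ℝ)) (c e : ℕ) :
    inCorner r C c e = true ↔ (capAt C e).1.2 < dotR (capAt C e).1.1 (corner72 r c) := by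
  unfold inCorner dotR corner72
  simp only [Num.lt, decide_eq_true_eq]

theorem corner72_mem (r : Rec ℝ) (hr : RecOK r) (c : ℕ) : corner72 r c ∈ RS r := by
  obtain ⟨h1, h2⟩ := hr
  unfold corner72 RS
  simp only [Set.mem_setOf_eq]
  refine ⟨?_, ?_, ?_, ?_⟩
  · cases (decide (c = 0) || decide (c = 3)) <;> simp <;> linarith
  · cases (decide (c = 0) || decide (c = 3)) <;> simp <;> linarith
  · cases (decide (c = 0) || decide (c = 1)) <;> simp <;> linarith
  · cases (decide (c = 0) || decide (c = 1)) <;> simp <;> linarith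

theorem capAt72_mem (C : List (Cap ℝ)) {i : ℕ} (hi : i < C.length) : capAt C i ∈ C := by
  unfold capAt
  rw [List.getD_eq_getElem _ _ hi]
  exact List.getElem_mem hi

theorem capAt72_eq (C : List (Cap ℝ)) {i : ℕ} (hi : i < C.length) : capAt C i = C[i] := by
  unfold capAt
  rw [List.getD_eq_getElem _ _ hi]

/-- a linear function attains its maximum over the sheet in a corner -/
theorem exists_corner72 (hG : Stmt_GEO1) (r : Rec ℝ) (i : ℕ) (z : Pt) (hz : z ∈ RI r) :
    ∃ c < 4, dotR i z ≤ dotR i (corner72 r c) := by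
  obtain ⟨h1, h2, h3, h4⟩ := hz
  obtain ⟨hdot, -⟩ := hG
  by_cases ha : 0 ≤ (nvec i).1 <;> by_cases hb : 0 ≤ (nvec i).2
  · refine ⟨2, by norm_num, ?_⟩
    rw [hdot, hdot]
    simp only [corner72]
    simp
    nlinarith
  · refine ⟨1, by norm_num, ?_⟩
    rw [hdot, hdot]
    simp only [corner72]
    simp
    nlinarith
  · refine ⟨3, by norm_num, ?_⟩
    rw [hdot, hdot]
    simp only [corner72]
    simp
    nlinarith
  · refine ⟨0, by norm_num, ?_⟩
    rw [hdot, hdot]
    simp only [corner72]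
    simp
    nlinarith

/-- consequences of `CapsOK` -/
theorem capsOK72 (hG2 : Stmt_GEO2) (r : Rec ℝ) (C : List (Cap ℝ)) (h : CapsOK r C) :
    (∀ i < C.length, (capAt C i).1.1 < 8 ∧ ProperS r (capAt C i).1) ∧
    (∀ i < C.length, ∀ j < C.length, isub r C i j = true ↔ SubS r (capAt C i).1 (capAt C j).1) ∧
    (∀ i < C.length, ∀ j < C.length, idisj r C i j = true ↔ DisjS r (capAt C i).1 (capAt C j).1) ∧
    (∀ i < C.length, ∀ j < C.length, i = j ∨ isub r C i j = true ∨ isub r C j i = true ∨
      DisjS r (capAt C i).1 (capAt C j).1) ∧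
    (∀ i < C.length, ∀ j < C.length, i ≠ j → ¬ SameL (capAt C i).1 (capAt C j).1) := by
  obtain ⟨g1, g2, g3, g4, g5⟩ := hG2 r h.rok
  have hdir : ∀ i < C.length, (capAt C i).1.1 < 8 := fun i hi => h.dir _ (capAt72_mem C hi)
  have hl := h.lam
  unfold laminar at hl
  rw [List.all_eq_true] at hl
  have hdisj : ∀ i < C.length, ∀ j < C.length, idisj r C i j = true ↔
      DisjS r (capAt C i).1 (capAt C j).1 := by
    intro i hi j hj
    exact g3 _ _ (hdir i hi) (hdir j hj)
  refine ⟨?_, ?_, hdisj, ?_, ?_⟩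
  · intro i hi
    refine ⟨hdir i hi, ?_⟩
    have := hl i (List.mem_range.mpr hi)
    rw [Bool.and_eq_true] at this
    exact (g1 _ (hdir i hi)).mp this.1
  · intro i hi j hj
    exact g2 _ _ (hdir i hi) (hdir j hj)
  · intro i hi j hj
    have := hl i (List.mem_range.mpr hi)
    rw [Bool.and_eq_true, List.all_eq_true] at this
    have h2 := this.2 j (List.mem_range.mpr hj)
    simp only [Bool.or_eq_true, decide_eq_true_eq] at h2
    rcases h2 with ((h2 | h2) | h2) | h2
    · exact Or.inl h2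
    · exact Or.inr (Or.inl h2)
    · exact Or.inr (Or.inr (Or.inl h2))
    · exact Or.inr (Or.inr (Or.inr ((hdisj i hi j hj).mp h2)))
  · intro i hi j hj hij
    have hp := List.pairwise_iff_getElem.mp h.line
    rw [capAt72_eq C hi, capAt72_eq C hj]
    rcases Nat.lt_or_gt_of_ne hij with hlt | hgt
    · exact hp i j hi hj hlt
    · intro hs
      refine hp j i hj hi hgt ?_
      unfold SameL at hs ⊢
      rcases hs with hs | hs
      · exact Or.inl hs.symm
      · right
        rw [hs]
        have h8 : (C[j]).1.1 < 8 := h.dir _ (List.getElem_mem hj)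
        unfold cneg
        ext
        · simp only
          omega
        · simp [Num.neg]

theorem stmt_COR (hG1 : Stmt_GEO1) (hG2 : Stmt_GEO2) : Stmt_COR := by
  intro r C h
  obtain ⟨a1, a2, a3, a4, a5⟩ := capsOK72 hG2 r C h
  obtain ⟨b1, b2, b3, b4⟩ := hG1
  obtain ⟨c1, c2, c3, c4, c5, c6, c7, c8, c9, c10, c11, c12, c13, c14, c15⟩ := b4 r h.rok
  refine ⟨?_, ?_, ?_, ?_, ?_, ?_⟩
  · intro i hi
    rw [a2 i hi i hi]
    intro z _ hz
    exact hz
  · intro i hi j hj k hk hij hjk
    rw [a2 i hi j hj] at hij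
    rw [a2 j hj k hk] at hjk
    rw [a2 i hi k hk]
    intro z hz hz'
    exact hjk z hz (hij z hz hz')
  · intro i hi j hj hij hji
    rw [a2 i hi j hj] at hij
    rw [a2 j hj i hi] at hji
    by_contra hne
    refine a5 i hi j hj hne ?_
    left
    exact c13 _ _ (a1 i hi).1 (a1 j hj).1 (a1 i hi).2 (a1 j hj).2 hij hji
  · intro i hi
    obtain ⟨⟨z, hz, hz'⟩, -⟩ := (a1 i hi).2
    obtain ⟨c, hc, hc'⟩ := exists_corner72 ⟨b1, b2, b3, b4⟩ r (capAt C i).1.1 z hz
    refine ⟨c, hc, ?_⟩
    rw [inCorner72_iff]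
    exact lt_of_lt_of_le hz' hc'
  · intro c hc i hi j hj hci hcj
    rw [inCorner72_iff] at hci hcj
    rcases a4 i hi j hj with hij | hij | hij | hij
    · left
      subst hij
      rw [a2 i hi i hi]
      intro z _ hz
      exact hz
    · exact Or.inl hij
    · exact Or.inr hij
    · exfalso
      have := c10 _ _ (a1 j hj).2 hij (corner72 r c) (corner72_mem r h.rok c) hci
      linarith
  · intro c hc i hi j hj hci hij
    rw [inCorner72_iff] at hci ⊢
    rw [a2 i hi j hj] at hij
    exact c9 _ _ (a1 j hj).2 hij (corner72 r c) (corner72_mem r h.rok c) hci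

end Pool.Agent.Work.MP_bd4052_lc
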