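import Pool.Agent.Work.MP_bd4052_lc_helper72.ABS1a
import Pool.Agent.Work.MP_bd4052_lc_helper72.COR

/-!
# MP_bd4052_lc, block ABS1, part b: the order of the stack
-/

set_option autoImplicit false

namespace Pool.Agent.Work.MP_bd4052_lc

namespace A1h72

section

variable {r : Rec ℝ} {C : List (Cap ℝ)}

open Classical in
/-- `ancs` in terms of indices -/
theorem ancs_map (hG2 : Stmt_GEO2) (hCO : CapsOK r C) {i : ℕ} (hi : i < C.length) {I : List ℕ}
    (hI : ∀ j ∈ I, j < C.length) :
    ancs r (I.map (capAt C)) (capAt C i) = (I.filter fun j => isub r C i j).map (capAt C) := by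
  obtain ⟨a1, a2, a3, a4, a5⟩ := capsOK72 hG2 r C hCO
  unfold ancs
  rw [List.filter_map]
  congr 1
  refine List.filter_congr ?_
  intro j hj
  simp only [Function.comp]
  rw [Bool.eq_iff_iff, decide_eq_true_eq, a2 i hi j (hI j hj)]

/-- the direction of a fold -/
theorem upR_eq (hG2 : Stmt_GEO2) (hC : Stmt_COR) (hCO : CapsOK r C) {i : ℕ} {I : List ℕ}
    (h : Gd r C (i :: I)) : upR r (I.map (capAt C)) (capAt C i) = upf r C i := by
  obtain ⟨c1, c2, c3, c4, c5, c6⟩ := hC r C hCO
  unfold upR upf
  rw [ancs_map hG2 hCO h.2.1 (Gd_lt h.1), List.length_map, depth_filter h List.mem_cons_self,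
    List.filter_cons_of_pos (c1 i h.2.1), List.length_cons, Nat.add_sub_cancel]

theorem or_rot1 {a b c : Prop} : (a ∨ b) ∨ c ↔ (c ∨ a) ∨ b := by tauto

theorem stack_mem {G : List (Cap ℝ)} (e : Cap ℝ) (k : Option (Cap ℝ)) :
    k ∈ stackR r (e :: G) ↔ k = some e ∨ k ∈ stackR r G := by
  show k ∈ (if upR r G e then _ else _) ↔ _
  split
  · rw [List.mem_append, List.mem_singleton, or_comm]
  · rw [List.mem_cons]

theorem stack_mem_iff (G : List (Cap ℝ)) (k : Option (Cap ℝ)) :
    k ∈ stackR r G ↔ k = none ∨ ∃ e ∈ G, k = some e := by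
  induction G with
  | nil => simp [stackR]
  | cons e G ih =>
    rw [stack_mem, ih]
    simp only [List.mem_cons, exists_eq_or_imp]
    exact or_left_comm

theorem stack_none (hG2 : Stmt_GEO2) (hC : Stmt_COR) (hCO : CapsOK r C) {I : List ℕ}
    (h : Gd r C I) : ∃ l₁ l₂, stackR r (I.map (capAt C)) = l₁ ++ none :: l₂ ∧
      (∀ k, k ∈ l₂ ↔ ∃ j ∈ I, upf r C j = true ∧ k = some (capAt C j)) ∧
      (∀ k, k ∈ l₁ ↔ ∃ j ∈ I, upf r C j = false ∧ k = some (capAt C j)) := by
  induction I with
  | nil => exact ⟨[], [], rfl, by simp, by simp⟩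
  | cons e I ih =>
    obtain ⟨l₁, l₂, h1, h2, h3⟩ := ih h.1
    have hup := upR_eq hG2 hC hCO h
    rw [List.map_cons]
    by_cases hu : upf r C e = true
    · refine ⟨l₁, l₂ ++ [some (capAt C e)], ?_, ?_, ?_⟩
      · show (if upR r (I.map (capAt C)) (capAt C e) then _ else _) = _
        rw [hup, hu, if_pos rfl, h1]
        simp
      · intro k
        rw [List.mem_append, List.mem_singleton, h2]
        simp only [List.mem_cons, exists_eq_or_imp, hu, true_and]
        exact or_comm
      · intro k
        rw [h3]
        simp only [List.mem_cons, exists_eq_or_imp, hu, Bool.true_eq_false, false_and, false_or]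
    · rw [Bool.not_eq_true] at hu
      refine ⟨some (capAt C e) :: l₁, l₂, ?_, ?_, ?_⟩
      · show (if upR r (I.map (capAt C)) (capAt C e) then _ else _) = _
        rw [hup, hu, if_neg (by simp), h1]
        simp
      · intro k
        rw [h2]
        simp only [List.mem_cons, exists_eq_or_imp, hu, Bool.false_eq_true, false_and, false_or]
      · intro k
        rw [List.mem_cons, h3]
        simp only [List.mem_cons, exists_eq_or_imp, hu, true_and]

theorem stack_some (hG2 : Stmt_GEO2) (hC : Stmt_COR) (hCO : CapsOK r C) {A B : List ℕ} {p : ℕ}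
    (h : Gd r C (A ++ p :: B)) : ∃ l₁ l₂, stackR r ((A ++ p :: B).map (capAt C)) =
        l₁ ++ some (capAt C p) :: l₂ ∧
      (∀ k, k ∈ l₂ ↔ (∃ j ∈ A, upf r C j = true ∧ k = some (capAt C j)) ∨
        (upf r C p = false ∧ (k = none ∨ ∃ j ∈ B, k = some (capAt C j)))) ∧
      (∀ k, k ∈ l₁ ↔ (∃ j ∈ A, upf r C j = false ∧ k = some (capAt C j)) ∨
        (upf r C p = true ∧ (k = none ∨ ∃ j ∈ B, k = some (capAt C j)))) := by
  induction A with
  | nil =>
    rw [List.nil_append] at h ⊢
    have hup := upR_eq hG2 hC hCO h
    rw [List.map_cons]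
    have hmem : ∀ k, k ∈ stackR r (B.map (capAt C)) ↔ k = none ∨ ∃ j ∈ B, k = some (capAt C j) := by
      intro k
      rw [stack_mem_iff]
      simp only [List.mem_map, exists_exists_and_eq_and]
    by_cases hu : upf r C p = true
    · refine ⟨stackR r (B.map (capAt C)), [], ?_, ?_, ?_⟩
      · show (if upR r (B.map (capAt C)) (capAt C p) then _ else _) = _
        rw [hup, hu, if_pos rfl]
      · intro k
        simp [hu]
      · intro k
        rw [hmem]
        simp [hu]
    · rw [Bool.not_eq_true] at hu
      refine ⟨[], stackR r (B.map (capAt C)), ?_, ?_, ?_⟩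
      · show (if upR r (B.map (capAt C)) (capAt C p) then _ else _) = _
        rw [hup, hu, if_neg (by simp)]
        rfl
      · intro k
        rw [hmem]
        simp [hu]
      · intro k
        simp [hu]
  | cons e A ih =>
    rw [List.cons_append] at h ⊢
    obtain ⟨l₁, l₂, h1, h2, h3⟩ := ih h.1
    have hup := upR_eq hG2 hC hCO h
    rw [List.map_cons]
    by_cases hu : upf r C e = true
    · refine ⟨l₁, l₂ ++ [some (capAt C e)], ?_, ?_, ?_⟩
      · show (if upR r ((A ++ p :: B).map (capAt C)) (capAt C e) then _ else _) = _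
        rw [hup, hu, if_pos rfl, h1]
        simp
      · intro k
        rw [List.mem_append, List.mem_singleton, h2]
        simp only [List.mem_cons, exists_eq_or_imp, hu, true_and]
        exact or_rot1
      · intro k
        rw [h3]
        simp only [List.mem_cons, exists_eq_or_imp, hu, Bool.true_eq_false, false_and, false_or]
    · rw [Bool.not_eq_true] at hu
      refine ⟨some (capAt C e) :: l₁, l₂, ?_, ?_, ?_⟩
      · show (if upR r ((A ++ p :: B).map (capAt C)) (capAt C e) then _ else _) = _
        rw [hup, hu, if_neg (by simp), h1]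
        simp
      · intro k
        rw [h2]
        simp only [List.mem_cons, exists_eq_or_imp, hu, Bool.false_eq_true, false_and, false_or]
      · intro k
        rw [List.mem_cons, h3]
        simp only [List.mem_cons, exists_eq_or_imp, hu, true_and]
        exact or_assoc.symm

/-- the piece with the number `k` -/
noncomputable def toP (C : List (Cap ℝ)) (k : ℕ) : Option (Cap ℝ) :=
  if k = 0 then none else some (capAt C (k - 1))

theorem toP_zero : toP C 0 = none := rfl

theorem toP_succ (j : ℕ) : toP C (j + 1) = some (capAt C j) := by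
  unfold toP
  simp

/-- the first element with a property -/
theorem find_split {I : List ℕ} (q : ℕ → Bool) :
    (I.find? q = none ∧ I.dropWhile (fun j => !(q j)) = [] ∧ ∀ j ∈ I, q j = false) ∨
    ∃ A p B, I = A ++ p :: B ∧ I.find? q = some p ∧ I.dropWhile (fun j => !(q j)) = p :: B ∧
      q p = true ∧ ∀ j ∈ A, q j = false := by
  induction I with
  | nil => left; simp
  | cons e I ih =>
    rw [List.find?_cons, List.dropWhile_cons]
    by_cases he : q e = true
    · right
      refine ⟨[], e, I, rfl, ?_, ?_, he, by simp⟩
      · rw [he]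
      · rw [he]; simp
    · rw [Bool.not_eq_true] at he
      rcases ih with ⟨h1, h2, h3⟩ | ⟨A, p, B, h1, h2, h3, h4, h5⟩
      · left
        refine ⟨?_, ?_, ?_⟩
        · rw [he]; exact h1
        · rw [he]; simpa using h2
        · intro j hj
          rcases List.mem_cons.mp hj with rfl | hj
          · exact he
          · exact h3 j hj
      · right
        refine ⟨e :: A, p, B, ?_, ?_, ?_, h4, ?_⟩
        · rw [h1]; rfl
        · rw [he]; exact h2
        · rw [he]; simpa using h3
        · intro j hj
          rcases List.mem_cons.mp hj with rfl | hj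
          · exact he
          · exact h5 j hj

open Classical in
/-- the parent and the two sides of the stack -/
theorem stack_parent (hG2 : Stmt_GEO2) (hC : Stmt_COR) (hCO : CapsOK r C) {e : ℕ} {I : List ℕ}
    (h : Gd r C (e :: I)) :
    parent r (I.map (capAt C)) (capAt C e) = toP C (parI r C I e) ∧
    (parI r C I e = 0 ∨ ∃ p ∈ I, parI r C I e = p + 1) ∧
    ∃ l₁ l₂, stackR r (I.map (capAt C)) = l₁ ++ toP C (parI r C I e) :: l₂ ∧
      (∀ K, K ∈ l₂ ↔ ∃ k ∈ side r C I (dpI r C I e) (parI r C I e) true, K = toP C k) ∧
      (∀ K, K ∈ l₁ ↔ ∃ k ∈ side r C I (dpI r C I e) (parI r C I e) false, K = toP C k) := by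
  have hnd := Gd_nodup h.1
  have hpar : parent r (I.map (capAt C)) (capAt C e) =
      ((I.filter fun j => isub r C e j).map (capAt C)).head? := by
    unfold parent
    rw [ancs_map hG2 hCO h.2.1 (Gd_lt h.1)]
  have hfind : parI r C I e = match I.find? (fun j => isub r C e j) with
      | none => 0
      | some p => p + 1 := rfl
  rcases find_split (I := I) (fun j => isub r C e j) with ⟨h1, h2, h3⟩ |
    ⟨A, p, B, h1, h2, h3, h4, h5⟩
  · have hp0 : parI r C I e = 0 := by rw [hfind, h1]
    have hdp : dpI r C I e = [] := h2
    rw [hp0, hdp, hpar]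
    refine ⟨?_, Or.inl rfl, ?_⟩
    · have : (I.filter fun j => isub r C e j) = [] := by
        rw [List.filter_eq_nil_iff]
        intro j hj
        rw [h3 j hj]
        simp
      rw [this]
      rfl
    · obtain ⟨l₁, l₂, s1, s2, s3⟩ := stack_none hG2 hC hCO h.1
      have hside : ∀ (up : Bool) (K : Option (Cap ℝ)),
          (∃ j ∈ I, upf r C j = up ∧ K = some (capAt C j)) ↔
          ∃ k ∈ side r C I [] 0 up, K = toP C k := by
        intro up K
        unfold side
        simp only [decide_true, cond_true, List.append_nil, List.mem_map, List.mem_filter,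
          List.contains_nil, Bool.not_false, Bool.true_and, beq_iff_eq]
        constructor
        · rintro ⟨j, hj, hu, rfl⟩
          exact ⟨j + 1, ⟨j, ⟨hj, hu⟩, rfl⟩, (toP_succ j).symm⟩
        · rintro ⟨k, ⟨j, ⟨hj, hu⟩, rfl⟩, rfl⟩
          exact ⟨j, hj, hu, toP_succ j⟩
      refine ⟨l₁, l₂, s1, ?_, ?_⟩
      · intro K
        rw [s2, hside]
      · intro K
        rw [s3, hside]
  · have hp0 : parI r C I e = p + 1 := by rw [hfind, h2]
    have hdp : dpI r C I e = p :: B := h3
    have hpI : p ∈ I := by rw [h1]; simp
    rw [hp0, hdp, hpar]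
    refine ⟨?_, Or.inr ⟨p, hpI, rfl⟩, ?_⟩
    · rw [h1, List.filter_append, List.filter_cons_of_pos h4]
      have : (A.filter fun j => isub r C e j) = [] := by
        rw [List.filter_eq_nil_iff]
        intro j hj
        rw [h5 j hj]
        simp
      rw [this, List.nil_append, List.map_cons, List.head?_cons, toP_succ]
    · have hg : Gd r C (A ++ p :: B) := by rw [← h1]; exact h.1
      obtain ⟨l₁, l₂, s1, s2, s3⟩ := stack_some hG2 hC hCO hg
      rw [h1] at hnd
      rw [List.nodup_append] at hnd
      obtain ⟨n1, n2, n3⟩ := hnd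
      rw [List.nodup_cons] at n2
      have hside : ∀ (up : Bool) (K : Option (Cap ℝ)),
          ((∃ j ∈ A, upf r C j = up ∧ K = some (capAt C j)) ∨
            (upf r C p = !up ∧ (K = none ∨ ∃ j ∈ B, K = some (capAt C j)))) ↔
          ∃ k ∈ side r C I (p :: B) (p + 1) up, K = toP C k := by
        intro up K
        unfold side
        have hne : ¬ (p + 1 = 0) := by omega
        simp only [hne, decide_false, cond_false, Nat.add_sub_cancel, List.mem_append,
          List.mem_map, List.mem_filter, Bool.and_eq_true, Bool.not_eq_true', beq_iff_eq]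
        have hcont : ∀ j, (p :: B).contains j = false ↔ ¬ (j = p ∨ j ∈ B) := by
          intro j
          rw [← Bool.not_eq_true, List.contains_iff_mem, List.mem_cons]
        constructor
        · rintro (⟨j, hj, hu, rfl⟩ | ⟨hu, rfl | ⟨j, hj, rfl⟩⟩)
          · refine ⟨j + 1, Or.inl ⟨j, ⟨?_, ?_, hu⟩, rfl⟩, (toP_succ j).symm⟩
            · rw [h1]; simp [hj]
            · rw [hcont]
              rintro (rfl | hb)
              · exact n3 j hj j List.mem_cons_self rfl
              · exact n3 j hj j (List.mem_cons_of_mem _ hb) rfl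
          · refine ⟨0, Or.inr ?_, rfl⟩
            rw [hu]
            cases up <;> simp
          · refine ⟨j + 1, Or.inr ?_, (toP_succ j).symm⟩
            have hjp : j ≠ p := by
              rintro rfl
              exact n2.1 hj
            rw [hu]
            cases up <;> simp [hj, hjp]
        · rintro ⟨k, (⟨j, ⟨hj, hc, hu⟩, rfl⟩ | hk), rfl⟩
          · left
            refine ⟨j, ?_, hu, toP_succ j⟩
            rw [hcont] at hc
            rw [h1, List.mem_append, List.mem_cons] at hj
            rcases hj with hj | hj
            · exact hj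
            · exact absurd hj hc
          · right
            by_cases hu : (upf r C p == up) = true
            · rw [hu] at hk
              simp at hk
            · rw [Bool.not_eq_true] at hu
              rw [hu] at hk
              simp only [cond_false, List.mem_cons, List.mem_map, List.mem_filter,
                Bool.not_eq_true', decide_eq_false_iff_not] at hk
              refine ⟨?_, ?_⟩
              · cases hx : upf r C p <;> cases up <;> simp_all
              · rcases hk with rfl | ⟨j, ⟨hj, hjp⟩, rfl⟩
                · exact Or.inl rfl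
                · right
                  rcases hj with hj | hj
                  · exact absurd hj hjp
                  · exact ⟨j, hj, toP_succ j⟩
      refine ⟨l₁, l₂, ?_, ?_, ?_⟩
      · rw [toP_succ, h1]
        exact s1
      · intro K
        rw [s2, ← hside true]
        rfl
      · intro K
        rw [s3, ← hside false]
        rfl

end

end A1h72

end Pool.Agent.Work.MP_bd4052_lc
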