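import Pool.Agent.Work.MP_bd4052_lc.Interface

/-!
# MP_bd4052_lc, block ABS2: the search finds all valid sequences of indices
-/

set_option autoImplicit false

namespace Pool.Agent.Work.MP_bd4052_lc

namespace A2h72

/-- same members -/
def SM {α : Type} (L L' : List α) : Prop := ∀ x, x ∈ L ↔ x ∈ L'

theorem all_congr_SM {α : Type} {L L' : List α} (h : SM L L') (p : α → Bool) :
    L.all p = L'.all p := by
  rw [Bool.eq_iff_iff, List.all_eq_true, List.all_eq_true]
  exact ⟨fun H x hx => H x ((h x).mpr hx), fun H x hx => H x ((h x).mp hx)⟩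

theorem SM.map {α β : Type} {L L' : List α} (h : SM L L') (f : α → β) :
    SM (L.map f) (L'.map f) := by
  intro x
  simp only [List.mem_map, h _]

theorem SM.append {α : Type} {L L' M M' : List α} (h : SM L L') (h' : SM M M') :
    SM (L ++ M) (L' ++ M') := by
  intro x
  simp only [List.mem_append, h _, h' _]

theorem SM.filter {α : Type} {L L' : List α} (h : SM L L') (p : α → Bool) :
    SM (L.filter p) (L'.filter p) := by
  intro x
  simp only [List.mem_filter, h _]

theorem SM.refl {α : Type} (L : List α) : SM L L := fun _ => Iff.rfl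

theorem SM.cons {α : Type} {L L' : List α} (h : SM L L') (a : α) : SM (a :: L) (a :: L') := by
  intro x
  simp only [List.mem_cons, h _]

theorem ctest_congr {L L' : List (Con ℝ)} (h : SM L L') : ctest L = ctest L' := by
  unfold ctest
  have e1 : ∀ q : Con ℝ → Con ℝ → Bool, (L.all fun a => L.all fun b => q a b) =
      (L'.all fun a => L'.all fun b => q a b) := by
    intro q
    rw [all_congr_SM h]
    congr 1
    funext a
    exact all_congr_SM h _
  have e2 : ∀ q : Con ℝ → Con ℝ → Con ℝ → Bool,
      (L.all fun a => L.all fun b => L.all fun c => q a b c) =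
      (L'.all fun a => L'.all fun b => L'.all fun c => q a b c) := by
    intro q
    rw [all_congr_SM h]
    congr 1
    funext a
    rw [all_congr_SM h]
    congr 1
    funext b
    exact all_congr_SM h _
  rw [e1, e2]

theorem move_congr (C : List (Cap ℝ)) (ch : List ℕ) {L L' : List (Con ℝ)} (h : SM L L') :
    SM (move C ch L) (move C ch L') := by
  unfold move
  induction ch generalizing L L' with
  | nil => exact h
  | cons a ch ih =>
    simp only [List.foldl_cons]
    exact ih (h.map _)

theorem base_congr (r : Rec ℝ) (C : List (Cap ℝ)) {dn dn' : List ℕ} (h : SM dn dn') (k : ℕ) :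
    SM (base r C dn k) (base r C dn' k) := by
  unfold base
  refine (SM.refl _).append ?_
  by_cases hk : k = 0
  · simp only [hk, decide_true, cond_true]
    exact h.map _
  · simp only [hk, decide_false, cond_false]
    exact ((h.filter _).map _).cons _

theorem region_congr (r : Rec ℝ) (C : List (Cap ℝ)) {dn dn' : List ℕ} (h : SM dn dn') (k : ℕ) :
    SM (region r C dn k) (region r C dn' k) := move_congr C _ (base_congr r C h k)

theorem side_congr (r : Rec ℝ) (C : List (Cap ℝ)) {dn dn' dp dp' : List ℕ} (h : SM dn dn')
    (h' : SM dp dp') (k : ℕ) (up : Bool) : SM (side r C dn dp k up) (side r C dn' dp' k up) := by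
  unfold side
  have e : ∀ j, dp.contains j = dp'.contains j := by
    intro j
    rw [Bool.eq_iff_iff, List.contains_iff_mem, List.contains_iff_mem]
    exact h' j
  refine SM.append ?_ ?_
  · simp only [e]
    exact (h.filter _).map _
  · by_cases hk : k = 0
    · simp only [hk, decide_true, cond_true]
      exact SM.refl _
    · simp only [hk, decide_false, cond_false]
      cases (upf r C (k - 1) == up)
      · simp only [cond_false]
        exact ((h'.filter _).map _).cons _
      · simp only [cond_true]
        exact SM.refl _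

theorem unblocked_congr (r : Rec ℝ) (C : List (Cap ℝ)) {dn dn' dp dp' : List ℕ} (h : SM dn dn')
    (h' : SM dp dp') (k e : ℕ) : unblocked r C dn dp k e = unblocked r C dn' dp' k e := by
  unfold unblocked
  rw [all_congr_SM (side_congr r C h h' k (upf r C e))]
  congr 1
  funext k'
  rw [ctest_congr ((region_congr r C h k').append (SM.refl _))]

/-! ### valid sequences of indices -/

theorem VSI_tail {r : Rec ℝ} {C : List (Cap ℝ)} {i : ℕ} {I : List ℕ} (h : VSI r C (i :: I)) :
    VSI r C I := h.1

theorem VSI_suffix {r : Rec ℝ} {C : List (Cap ℝ)} {I J : List ℕ} (h : VSI r C I) (hs : J <:+ I) :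
    VSI r C J := by
  induction I with
  | nil =>
    rw [List.suffix_nil] at hs
    subst hs
    trivial
  | cons i I ih =>
    rw [List.suffix_cons_iff] at hs
    rcases hs with rfl | hs
    · exact h
    · exact ih h.1 hs

theorem VSI_lt {r : Rec ℝ} {C : List (Cap ℝ)} {I : List ℕ} (h : VSI r C I) :
    ∀ i ∈ I, i < C.length := by
  induction I with
  | nil => simp
  | cons i I ih =>
    intro j hj
    rcases List.mem_cons.mp hj with rfl | hj
    · exact h.2.1
    · exact ih h.1 j hj

theorem VSI_nodup {r : Rec ℝ} {C : List (Cap ℝ)} {I : List ℕ} (h : VSI r C I) : I.Nodup := by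
  induction I with
  | nil => simp
  | cons i I ih => exact List.nodup_cons.mpr ⟨h.2.2.1, ih h.1⟩

theorem VSI_closed {r : Rec ℝ} {C : List (Cap ℝ)} {I : List ℕ} (h : VSI r C I) :
    ∀ i ∈ I, ∀ j < C.length, isub r C i j = true → j ∈ I := by
  induction I with
  | nil => simp
  | cons i I ih =>
    intro k hk j hj hkj
    rcases List.mem_cons.mp hk with rfl | hk
    · rcases h.2.2.2.1 j hj hkj with rfl | h'
      · exact List.mem_cons_self
      · exact List.mem_cons_of_mem _ h'
    · exact List.mem_cons_of_mem _ (ih h.1 k hk j hj hkj)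

/-! ### the states -/

/-- the state after the folds `I` (head = last fold) -/
noncomputable def stt (r : Rec ℝ) (C : List (Cap ℝ)) : List ℕ → St
  | [] => initSt
  | i :: I => doStep r C (stt r C I) i

theorem getD_range4 {α : Type} (f : ℕ → α) (d : α) (c : ℕ) (hc : c < 4) :
    ((List.range 4).map f).getD c d = f c := by
  rw [List.getD_eq_getElem _ _ (by simpa using hc)]
  simp

theorem tip_eq (r : Rec ℝ) (C : List (Cap ℝ)) (I : List ℕ) (c : ℕ) (hc : c < 4) :
    (stt r C I).1.getD c 0 = match I.find? (fun j => inCorner r C c j) with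
      | none => 0
      | some p => p + 1 := by
  induction I with
  | nil =>
    simp only [stt, initSt, List.find?_nil]
    interval_cases c <;> rfl
  | cons i I ih =>
    simp only [stt, doStep, newTips]
    rw [getD_range4 _ _ c hc, List.find?_cons]
    cases h : inCorner r C c i
    · simp only [cond_false]
      exact ih
    · simp only [cond_true]

theorem back_eq (r : Rec ℝ) (C : List (Cap ℝ)) (I : List ℕ) (c : ℕ) (hc : c < 4) :
    (stt r C I).2.getD c [] = (stt r C (I.dropWhile (fun j => !(inCorner r C c j)))).1 := by
  induction I with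
  | nil =>
    simp only [stt, initSt, List.dropWhile_nil]
    interval_cases c <;> rfl
  | cons i I ih =>
    simp only [stt, doStep]
    rw [getD_range4 _ _ c hc, List.dropWhile_cons]
    cases h : inCorner r C c i
    · simp only [cond_false, Bool.not_false, if_true]
      exact ih
    · simp only [cond_true, Bool.not_true, Bool.false_eq_true, if_false]
      simp only [stt, doStep]

theorem len1 (r : Rec ℝ) (C : List (Cap ℝ)) (I : List ℕ) : (stt r C I).1.length = 4 := by
  cases I with
  | nil => rfl
  | cons i I => simp [stt, doStep, newTips]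

theorem len2 (r : Rec ℝ) (C : List (Cap ℝ)) (I : List ℕ) : (stt r C I).2.length = 4 := by
  cases I with
  | nil => rfl
  | cons i I => simp [stt, doStep]

theorem mem_iff_getD {α : Type} (l : List α) (d : α) (hl : l.length = 4) (t : α) :
    t ∈ l ↔ ∃ c < 4, l.getD c d = t := by
  rw [List.mem_iff_getElem]
  constructor
  · rintro ⟨c, hc, rfl⟩
    exact ⟨c, by omega, List.getD_eq_getElem _ _ hc⟩
  · rintro ⟨c, hc, rfl⟩
    exact ⟨c, by omega, (List.getD_eq_getElem _ _ (by omega)).symm⟩

theorem tip_le (r : Rec ℝ) (C : List (Cap ℝ)) (I : List ℕ) (hI : ∀ i ∈ I, i < C.length) :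
    ∀ t ∈ (stt r C I).1, t < C.length + 1 := by
  intro t ht
  rw [mem_iff_getD _ 0 (len1 r C I)] at ht
  obtain ⟨c, hc, rfl⟩ := ht
  rw [tip_eq r C I c hc]
  cases h : I.find? (fun j => inCorner r C c j) with
  | none => simp
  | some p =>
    have := hI p (List.mem_of_find?_eq_some h)
    simp only
    omega

theorem mem_tuples {α : Type} (l : List α) (n : ℕ) (t : List α) :
    t ∈ tuples l n ↔ t.length = n ∧ ∀ a ∈ t, a ∈ l := by
  induction n generalizing t with
  | zero =>
    simp only [tuples, List.mem_singleton, List.length_eq_zero_iff]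
    constructor
    · rintro rfl; simp
    · exact fun h => h.1
  | succ n ih =>
    simp only [tuples, List.mem_flatMap, List.mem_map]
    constructor
    · rintro ⟨t', ht', a, ha, rfl⟩
      rw [ih] at ht'
      refine ⟨by simp [ht'.1], ?_⟩
      intro b hb
      rcases List.mem_cons.mp hb with rfl | hb
      · exact ha
      · exact ht'.2 b hb
    · rintro ⟨h1, h2⟩
      cases t with
      | nil => simp at h1
      | cons a t' =>
        refine ⟨t', ?_, a, h2 a List.mem_cons_self, rfl⟩
        rw [ih]
        refine ⟨by simpa using h1, fun b hb => h2 b (List.mem_cons_of_mem _ hb)⟩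

theorem stt_mem (r : Rec ℝ) (C : List (Cap ℝ)) (I : List ℕ) (hI : ∀ i ∈ I, i < C.length) :
    stt r C I ∈ allSt C.length := by
  unfold allSt
  rw [List.mem_flatMap]
  refine ⟨(stt r C I).1, ?_, ?_⟩
  · rw [mem_tuples]
    refine ⟨len1 r C I, fun t ht => ?_⟩
    rw [List.mem_range]
    exact tip_le r C I hI t ht
  · rw [List.mem_map]
    refine ⟨(stt r C I).2, ?_, rfl⟩
    rw [mem_tuples]
    refine ⟨len2 r C I, fun b hb => ?_⟩
    rw [mem_iff_getD _ [] (len2 r C I)] at hb
    obtain ⟨c, hc, rfl⟩ := hb
    rw [back_eq r C I c hc, mem_tuples]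
    refine ⟨len1 r C _, fun t ht => ?_⟩
    rw [List.mem_range]
    refine tip_le r C _ ?_ t ht
    intro i hi
    exact hI i ((List.dropWhile_suffix _).subset hi)

/-! ### the invariants -/

section

variable {r : Rec ℝ} {C : List (Cap ℝ)}

theorem find_corner (hC : Stmt_COR) (hCO : CapsOK r C) (c : ℕ) (hc : c < 4) {I : List ℕ}
    (h : VSI r C I) : ∀ j ∈ I, inCorner r C c j = true →
    ∃ j', I.find? (fun j => inCorner r C c j) = some j' ∧ isub r C j' j = true := by
  obtain ⟨h1, h2, h3, h4, h5, h6⟩ := hC r C hCO
  induction I with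
  | nil => simp
  | cons e I ih =>
    intro j hj hcj
    rw [List.find?_cons]
    by_cases hce : inCorner r C c e = true
    · rw [hce]
      refine ⟨e, rfl, ?_⟩
      rcases List.mem_cons.mp hj with rfl | hj
      · exact h1 j h.2.1
      · have hjn := VSI_lt h.1 j hj
        rcases h5 c hc e h.2.1 j hjn hce hcj with h' | h'
        · exact h'
        · exact absurd (VSI_closed h.1 j hj e h.2.1 h') h.2.2.1
    · rw [Bool.not_eq_true] at hce
      rw [hce]
      rcases List.mem_cons.mp hj with rfl | hj
      · rw [hcj] at hce
        exact absurd hce (by simp)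
      · exact ih h.1 j hj hcj

theorem made_iff (hC : Stmt_COR) (hCO : CapsOK r C) {I : List ℕ}
    (h : VSI r C I) (j : ℕ) : j ∈ made r C (stt r C I).1 ↔ j ∈ I := by
  obtain ⟨h1, h2, h3, h4, h5, h6⟩ := hC r C hCO
  unfold made
  rw [List.mem_filter, List.mem_range, List.any_eq_true]
  constructor
  · rintro ⟨hj, t, ht, ht'⟩
    rw [Bool.and_eq_true] at ht'
    obtain ⟨ht0, hts⟩ := ht'
    rw [mem_iff_getD _ 0 (len1 r C I)] at ht
    obtain ⟨c, hc, rfl⟩ := ht
    rw [tip_eq r C I c hc] at ht0 hts
    cases hf : I.find? (fun j => inCorner r C c j) with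
    | none =>
      rw [hf] at ht0
      simp at ht0
    | some p =>
      rw [hf] at hts
      simp only [Nat.add_sub_cancel] at hts
      exact VSI_closed h p (List.mem_of_find?_eq_some hf) j hj hts
  · intro hj
    have hjn := VSI_lt h j hj
    refine ⟨hjn, ?_⟩
    obtain ⟨c, hc, hcj⟩ := h4 j hjn
    obtain ⟨j', hf, hs⟩ := find_corner hC hCO c hc h j hj hcj
    refine ⟨j' + 1, ?_, ?_⟩
    · rw [mem_iff_getD _ 0 (len1 r C I)]
      refine ⟨c, hc, ?_⟩
      rw [tip_eq r C I c hc, hf]
    · simp [hs]

theorem cornerOf_spec (hC : Stmt_COR) (hCO : CapsOK r C) (e : ℕ) (he : e < C.length) :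
    cornerOf r C e < 4 ∧ inCorner r C (cornerOf r C e) e = true := by
  obtain ⟨h1, h2, h3, h4, h5, h6⟩ := hC r C hCO
  unfold cornerOf
  cases h0' : inCorner r C 0 e
  · cases h1' : inCorner r C 1 e
    · cases h2' : inCorner r C 2 e
      · simp only [cond_false]
        obtain ⟨c, hc, hce⟩ := h4 e he
        refine ⟨by norm_num, ?_⟩
        interval_cases c
        · rw [h0'] at hce; exact absurd hce (by simp)
        · rw [h1'] at hce; exact absurd hce (by simp)
        · rw [h2'] at hce; exact absurd hce (by simp)
        · exact hce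
      · simp only [cond_false, cond_true]
        exact ⟨by norm_num, h2'⟩
    · simp only [cond_false, cond_true]
      exact ⟨by norm_num, h1'⟩
  · simp only [cond_true]
    exact ⟨by norm_num, h0'⟩

theorem find_congr {p q : ℕ → Bool} {I : List ℕ} (h : ∀ j ∈ I, p j = q j) :
    I.find? p = I.find? q := by
  induction I with
  | nil => rfl
  | cons i I ih =>
    rw [List.find?_cons, List.find?_cons, h i List.mem_cons_self,
      ih (fun j hj => h j (List.mem_cons_of_mem _ hj))]

theorem dropWhile_congr {p q : ℕ → Bool} {I : List ℕ} (h : ∀ j ∈ I, p j = q j) :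
    I.dropWhile p = I.dropWhile q := by
  induction I with
  | nil => rfl
  | cons i I ih =>
    rw [List.dropWhile_cons, List.dropWhile_cons, h i List.mem_cons_self,
      ih (fun j hj => h j (List.mem_cons_of_mem _ hj))]

theorem okStep_iff (hC : Stmt_COR) (hCO : CapsOK r C) {I : List ℕ}
    (h : VSI r C I) (e : ℕ) (he : e < C.length) :
    okStep r C (stt r C I) e = true ↔ VSI r C (e :: I) := by
  have hC' := hC
  obtain ⟨h1, h2, h3, h4, h5, h6⟩ := hC r C hCO
  have hm := made_iff hC' hCO h
  have hcont : ∀ j, (made r C (stt r C I).1).contains j = true ↔ j ∈ I := by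
    intro j
    rw [List.contains_iff_mem]
    exact hm j
  obtain ⟨hc4, hce⟩ := cornerOf_spec hC' hCO e he
  set c := cornerOf r C e with hcdef
  -- the main equivalence
  have key : e ∉ I → (∀ j < C.length, isub r C e j = true → j = e ∨ j ∈ I) →
      (unblocked r C (made r C (stt r C I).1)
        (bif decide ((stt r C I).1.getD c 0 = 0) then [] else
          made r C ((stt r C I).2.getD c [])) ((stt r C I).1.getD c 0) e =
        unblocked r C I (dpI r C I e) (parI r C I e) e) := by
    intro heI hcl
    have hcorner : ∀ j ∈ I, inCorner r C c j = isub r C e j := by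
      intro j hj
      have hjn := VSI_lt h j hj
      rw [Bool.eq_iff_iff]
      constructor
      · intro hcj
        rcases h5 c hc4 e he j hjn hce hcj with h' | h'
        · exact h'
        · exact absurd (VSI_closed h j hj e he h') heI
      · intro hej
        exact h6 c hc4 e he j hjn hce hej
    have hpar : (stt r C I).1.getD c 0 = parI r C I e := by
      rw [tip_eq r C I c hc4]
      unfold parI
      rw [find_congr hcorner]
      generalize List.find? (fun j => isub r C e j) I = o
      cases o <;> rfl
    have hdp : I.dropWhile (fun j => !(inCorner r C c j)) = dpI r C I e := by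
      unfold dpI
      refine dropWhile_congr fun j hj => ?_
      rw [hcorner j hj]
    rw [hpar]
    refine unblocked_congr r C hm ?_ _ _
    rw [back_eq r C I c hc4, hdp]
    by_cases h0 : parI r C I e = 0
    · simp only [h0, decide_true, cond_true]
      have hnone : I.find? (fun j => isub r C e j) = none := by
        cases hf : I.find? (fun j => isub r C e j) with
        | none => rfl
        | some p =>
          unfold parI at h0
          rw [hf] at h0
          simp at h0
      have : dpI r C I e = [] := by
        unfold dpI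
        rw [List.dropWhile_eq_nil_iff]
        intro j hj
        rw [List.find?_eq_none] at hnone
        have := hnone j hj
        simpa using this
      rw [this]
      exact SM.refl _
    · simp only [h0, decide_false, cond_false]
      intro j
      refine made_iff hC' hCO (VSI_suffix h ?_) j
      exact List.dropWhile_suffix _
  have hexp : okStep r C (stt r C I) e = true ↔ (e ∉ I ∧
      (∀ j < C.length, isub r C e j = true → j = e ∨ j ∈ I)) ∧
      unblocked r C (made r C (stt r C I).1)
        (bif decide ((stt r C I).1.getD c 0 = 0) then [] else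
          made r C ((stt r C I).2.getD c [])) ((stt r C I).1.getD c 0) e = true := by
    unfold okStep
    rw [← hcdef, Bool.and_eq_true, Bool.and_eq_true]
    refine and_congr (and_congr ?_ ?_) Iff.rfl
    · rw [Bool.not_eq_true', ← Bool.not_eq_true, hcont]
    · rw [List.all_eq_true]
      constructor
      · intro H j hj hej
        have := H j (List.mem_range.mpr hj)
        rw [Bool.or_eq_true, Bool.or_eq_true, hcont, hej] at this
        rcases this with (h' | h') | h'
        · simp at h'
        · exact Or.inl (by simpa using h')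
        · exact Or.inr h'
      · intro H j hj
        rw [Bool.or_eq_true, Bool.or_eq_true, hcont]
        by_cases hej : isub r C e j = true
        · rcases H j (List.mem_range.mp hj) hej with h' | h'
          · exact Or.inl (Or.inr (by simpa using h'))
          · exact Or.inr h'
        · left; left
          rw [Bool.not_eq_true] at hej
          rw [hej]
          rfl
  rw [hexp]
  constructor
  · rintro ⟨⟨ha, hb⟩, hu⟩
    rw [key ha hb] at hu
    exact ⟨h, he, ha, hb, hu⟩
  · rintro ⟨-, -, ha, hb, hu⟩
    refine ⟨⟨ha, hb⟩, ?_⟩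
    rw [key ha hb]
    exact hu

/-- the levels of the search -/
theorem level_iff (hC : Stmt_COR) (hCO : CapsOK r C) (m : ℕ) (s : St) :
    s ∈ (List.range m).foldl (fun l _ => nextSt r C l) [initSt] ↔
      ∃ I : List ℕ, I.length = m ∧ VSI r C I ∧ stt r C I = s := by
  induction m generalizing s with
  | zero =>
    simp only [List.range_zero, List.foldl_nil, List.mem_singleton]
    constructor
    · rintro rfl
      exact ⟨[], rfl, trivial, rfl⟩
    · rintro ⟨I, hI, -, rfl⟩
      rw [List.length_eq_zero_iff] at hI
      subst hI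
      rfl
  | succ m ih =>
    rw [List.range_succ, List.foldl_append]
    simp only [List.foldl_cons, List.foldl_nil]
    generalize hl : (List.range m).foldl (fun l _ => nextSt r C l) [initSt] = l at ih ⊢
    unfold nextSt
    rw [List.mem_filter, List.any_eq_true]
    constructor
    · rintro ⟨-, s', hs', hh⟩
      rw [List.any_eq_true] at hh
      obtain ⟨e, he, hh⟩ := hh
      rw [Bool.and_eq_true, decide_eq_true_eq] at hh
      obtain ⟨I, hI, hV, rfl⟩ := (ih s').mp hs'
      refine ⟨e :: I, by simp [hI], ?_, hh.2⟩
      exact (okStep_iff hC hCO hV e (List.mem_range.mp he)).mp hh.1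
    · rintro ⟨I, hI, hV, rfl⟩
      refine ⟨stt_mem r C I (VSI_lt hV), ?_⟩
      cases I with
      | nil => simp at hI
      | cons e I =>
        refine ⟨stt r C I, (ih _).mpr ⟨I, by simpa using hI, hV.1, rfl⟩, ?_⟩
        rw [List.any_eq_true]
        refine ⟨e, List.mem_range.mpr hV.2.1, ?_⟩
        rw [Bool.and_eq_true, decide_eq_true_eq]
        exact ⟨(okStep_iff hC hCO hV.1 e hV.2.1).mpr hV, rfl⟩

end

end A2h72

/-- BLOCK ABS2 -/
theorem stmt_ABS2 (hC : Stmt_COR) : Stmt_ABS2 := by
  intro r C hCO
  have hs : searchAll r C = true ↔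
      ∃ s, s ∈ (List.range C.length).foldl (fun l _ => nextSt r C l) [initSt] := by
    unfold searchAll
    rw [Bool.not_eq_true', List.isEmpty_eq_false_iff_exists_mem]
  rw [hs]
  constructor
  · rintro ⟨I, hI, hV⟩
    exact ⟨_, (A2h72.level_iff hC hCO _ _).mpr ⟨I, by rw [hI.length_eq, List.length_range], hV,
      rfl⟩⟩
  · rintro ⟨s, hs⟩
    obtain ⟨I, hI, hV, -⟩ := (A2h72.level_iff hC hCO _ _).mp hs
    refine ⟨I, ?_, hV⟩
    have hsub : I.Subperm (List.range C.length) := by
      refine List.subperm_of_subset (A2h72.VSI_nodup hV) ?_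
      intro i hi
      exact List.mem_range.mpr (A2h72.VSI_lt hV i hi)
    exact hsub.perm_of_length_le (by rw [List.length_range, hI])

end Pool.Agent.Work.MP_bd4052_lc
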